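import Pool.Agent.N204.Ray.Cone

/-!
# Decomposition of the long solutions of a system of linear inequalities

Let `f k` be finitely many vectors of natural numbers.  Consider a vector `c` of natural numbers, a
number `w`, and the slacks `f k · c - w`.  If `c` is long then there are a short nonzero part
`m ≤ c` and a number `v ≤ w` such that `0 ≤ f k · m - v ≤ max (f k · c - w) 0` for all `k`.
-/

namespace Pool.Agent.N204.Ray

open Module Finset

/-- The bound for the length, for `b` letters and coefficients at most `B`. -/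
def lenBound (b B R : ℕ) : ℕ := b * ((b + 3) * ((b + 1).factorial * (B ^ b * R)))

variable {ι κ : Type*} [Fintype ι] [Fintype κ]

/-- **Decomposition of long solutions.** -/
theorem cone_split [Nonempty κ] (f : κ → ι → ℕ) {B R : ℕ} (hB1 : 1 ≤ B) (hR1 : 1 ≤ R)
    (hB : ∀ k l, f k l ≤ B) (c : ι → ℕ) (w : ℕ) (hR : ∀ k, (w : ℤ) - ∑ l, (f k l : ℤ) * c l ≤ R)
    (hN : lenBound (Fintype.card ι) B R < ∑ l, c l) :
    ∃ (m : ι → ℕ) (v : ℕ), (∀ l, m l ≤ c l) ∧ v ≤ w ∧ 0 < ∑ l, m l ∧ ∑ l, m l < ∑ l, c l ∧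
      (∀ k, (v : ℤ) ≤ ∑ l, (f k l : ℤ) * m l) ∧
      (∀ k, ∑ l, (f k l : ℤ) * m l - v ≤ max (∑ l, (f k l : ℤ) * c l - w) 0) := by
  classical
  let a : κ → ℕ := fun k => ((w : ℤ) - ∑ l, (f k l : ℤ) * c l).toNat
  have ha : ∀ k, (a k : ℤ) = max ((w : ℤ) - ∑ l, (f k l : ℤ) * c l) 0 := fun k => Int.toNat_eq_max _
  have haD : ∀ k, (a k : ℤ) ≤ R := by
    intro k
    rw [ha]
    exact max_le (hR k) (Int.natCast_nonneg _)
  -- the rows; the coordinates `inr false` and `inr true` are the number and the homogenizing variable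
  let A : (ι ⊕ Bool) ⊕ κ → ι ⊕ Bool → ℤ := Sum.elim (fun j => Pi.single j 1)
    (fun k => Sum.elim (fun l => (f k l : ℤ)) (fun s => if s then (a k : ℤ) else -1))
  let D : ι ⊕ Bool → ℕ := Sum.elim (fun _ => B) (fun s => if s then R else 1)
  have hD1 : ∀ j, 1 ≤ D j := by
    rintro (j | j)
    · exact hB1
    · cases j
      · exact le_rfl
      · exact hR1
  have hAD : ∀ k j, |A k j| ≤ D j := by
    rintro (k | k) j
    · simp only [A, Sum.elim_inl]
      have h1 : (1 : ℤ) ≤ D j := by exact_mod_cast hD1 j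
      by_cases h : j = k
      · subst h; rw [Pi.single_eq_same, abs_one]; exact h1
      · rw [Pi.single_eq_of_ne h, abs_zero]; linarith
    · rcases j with j | j
      · simp only [A, Sum.elim_inr, Sum.elim_inl, Nat.abs_cast]
        exact_mod_cast hB k j
      · cases j
        · simp [A, D]
        · simp only [A, D, Sum.elim_inr, if_true, Nat.abs_cast]
          exact haD k
  have hfl : ∀ (j : ι ⊕ Bool) (z : ι ⊕ Bool → ℚ), fn (A (Sum.inl j)) z = z j := by
    intro j z
    rw [fn_apply, Finset.sum_eq_single j]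
    · simp only [A, Sum.elim_inl, Pi.single_eq_same, Int.cast_one, one_mul]
    · intro i _ hi
      simp only [A, Sum.elim_inl, Pi.single_eq_of_ne hi, Int.cast_zero, zero_mul]
    · intro h; exact absurd (Finset.mem_univ _) h
  have hfr : ∀ (k : κ) (z : ι ⊕ Bool → ℚ), fn (A (Sum.inr k)) z =
      ∑ l, (f k l : ℚ) * z (Sum.inl l) + (a k : ℚ) * z (Sum.inr true) - z (Sum.inr false) := by
    intro k z
    rw [fn_apply, Fintype.sum_sum_type, Fintype.sum_bool]
    simp only [A, Sum.elim_inr, Sum.elim_inl, if_true, Bool.false_eq_true, if_false, Int.cast_natCast,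
      Int.cast_neg, Int.cast_one]
    ring
  have hp : ∀ z : ι ⊕ Bool → ℚ, (∀ k, 0 ≤ fn (A k) z) → ∀ j, 0 ≤ z j := by
    intro z hz j
    have := hz (Sum.inl j)
    rwa [hfl] at this
  have hcardJ : Fintype.card (ι ⊕ Bool) = Fintype.card ι + 2 := by
    rw [Fintype.card_sum, Fintype.card_bool]
  set n := Fintype.card ι with hn
  set Δ := rayBound D with hΔ
  have hΔ' : Δ = (n + 1).factorial * (B ^ n * R) := by
    rw [hΔ, rayBound, hcardJ, Fintype.prod_sum_type, Fintype.prod_bool]
    simp only [D, Sum.elim_inl, Sum.elim_inr, Finset.prod_const, Finset.card_univ, if_true,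
      Bool.false_eq_true, if_false, mul_one]
    rfl
  have hlen : lenBound n B R = n * ((n + 3) * Δ) := by rw [hΔ']; rfl
  let x : ι ⊕ Bool → ℚ := Sum.elim (fun l => (c l : ℚ)) (fun s => if s then 1 else (w : ℚ))
  have hxr : ∀ k, fn (A (Sum.inr k)) x = ((max (∑ l, (f k l : ℤ) * c l - w) 0 : ℤ) : ℚ) := by
    intro k
    rw [hfr]
    simp only [x, Sum.elim_inl, Sum.elim_inr, if_true, Bool.false_eq_true, if_false, mul_one]
    have h1 : ((∑ l, (f k l : ℤ) * c l + a k - w : ℤ) : ℚ) =
        ∑ l, (f k l : ℚ) * (c l : ℚ) + (a k : ℚ) - (w : ℚ) := by push_cast; ring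
    rw [← h1]
    congr 1
    rw [ha]
    rcases le_total ((w : ℤ) - ∑ l, (f k l : ℤ) * c l) 0 with h | h
    · rw [max_eq_right h, max_eq_left (by linarith)]; ring
    · rw [max_eq_left h, max_eq_right (by linarith)]; ring
  have hx : ∀ k, 0 ≤ fn (A k) x := by
    rintro (j | k)
    · rw [hfl]
      rcases j with l | s
      · exact Nat.cast_nonneg _
      · cases s
        · simp only [x, Sum.elim_inr, Bool.false_eq_true, if_false]; exact Nat.cast_nonneg _
        · simp [x]
    · rw [hxr]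
      exact_mod_cast le_max_right _ _
  obtain ⟨l₀, hl₀⟩ : ∃ l, (n + 3) * Δ < c l := by
    by_contra hcon
    push Not at hcon
    have h1 : ∑ l, c l ≤ ∑ _l : ι, (n + 3) * Δ := Finset.sum_le_sum fun l _ => hcon l
    rw [Finset.sum_const, Finset.card_univ, smul_eq_mul] at h1
    rw [hlen] at hN
    exact absurd hN (not_lt.2 h1)
  have hker : ∀ y : ι ⊕ Bool → ℚ, finrank ℚ (kerT A y) ≤ n + 2 := by
    intro y
    refine (Submodule.finrank_le _).trans ?_
    rw [finrank_fintype_fun_eq_card, hcardJ]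
  -- the short vector
  obtain ⟨r, hr0, hr1, hr2, hr3, hrt⟩ : ∃ r : ι ⊕ Bool → ℤ, r ≠ 0 ∧ (∀ k, 0 ≤ fn (A k) (rv r)) ∧
      (∀ k, fn (A k) (rv r) ≤ fn (A k) x) ∧ (∀ j, |r j| ≤ Δ) ∧ r (Sum.inr true) = 0 := by
    obtain ⟨r, hr0, hr1, hr2, hr3⟩ := exists_part hD1 hAD hp (n + 2) x hx (hker x) ⟨Sum.inl l₀, by
      have h1 : ((n + 2) * Δ : ℕ) < c l₀ := lt_of_le_of_lt (Nat.mul_le_mul_right _ (by omega)) hl₀
      simp only [x, Sum.elim_inl]
      exact_mod_cast h1⟩
    have h1 : 0 ≤ r (Sum.inr true) := by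
      have := hp _ hr1 (Sum.inr true)
      simp only [rv] at this
      exact_mod_cast this
    have h2 : r (Sum.inr true) ≤ 1 := by
      have := hr2 (Sum.inl (Sum.inr true))
      rw [hfl, hfl] at this
      simp only [rv, x, Sum.elim_inr, if_true] at this
      exact_mod_cast this
    rcases eq_or_ne (r (Sum.inr true)) 0 with h3 | h3
    · exact ⟨r, hr0, hr1, hr2, hr3, h3⟩
    have h4 : r (Sum.inr true) = 1 := by omega
    have hx' : ∀ k, 0 ≤ fn (A k) (x - rv r) := fun k => by
      rw [map_sub]; linarith [hr2 k]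
    obtain ⟨y, hy0, hy1, hy2, hy3⟩ := exists_part hD1 hAD hp (n + 2) (x - rv r) hx' (hker _)
      ⟨Sum.inl l₀, by
        rw [Pi.sub_apply]
        have h5 : ((n + 3) * Δ : ℕ) < c l₀ := hl₀
        have h6 : ((r (Sum.inl l₀) : ℤ) : ℚ) ≤ ((Δ : ℕ) : ℚ) := by
          have := (le_abs_self _).trans (hr3 (Sum.inl l₀))
          exact_mod_cast this
        have h7 : (((n + 3) * Δ : ℕ) : ℚ) < c l₀ := by exact_mod_cast h5
        simp only [x, Sum.elim_inl, rv]
        push_cast at h7 ⊢
        linarith⟩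
    refine ⟨y, hy0, hy1, fun k => ?_, hy3, ?_⟩
    · have h5 := hy2 k
      rw [map_sub] at h5
      linarith [hr1 k]
    · have h5 := hp _ hy1 (Sum.inr true)
      have h6 := hy2 (Sum.inl (Sum.inr true))
      rw [hfl, hfl, Pi.sub_apply] at h6
      simp only [rv, x, Sum.elim_inr, if_true, h4] at h5 h6
      have h7 : (0 : ℤ) ≤ y (Sum.inr true) := by exact_mod_cast h5
      have h8 : y (Sum.inr true) ≤ 0 := by
        have : ((y (Sum.inr true) : ℤ) : ℚ) ≤ 0 := by push_cast at h6; linarith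
        exact_mod_cast this
      omega
  have hnn : ∀ j, 0 ≤ r j := by
    intro j
    have := hp _ hr1 j
    simp only [rv] at this
    exact_mod_cast this
  have hle : ∀ l, r (Sum.inl l) ≤ c l := by
    intro l
    have := hr2 (Sum.inl (Sum.inl l))
    rw [hfl, hfl] at this
    simp only [rv, x, Sum.elim_inl] at this
    exact_mod_cast this
  have hval : ∀ k, fn (A (Sum.inr k)) (rv r) =
      ((∑ l, (f k l : ℤ) * r (Sum.inl l) - r (Sum.inr false) : ℤ) : ℚ) := by
    intro k
    rw [hfr]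
    simp only [rv, hrt]
    push_cast
    ring
  let m : ι → ℕ := fun l => (r (Sum.inl l)).toNat
  have hm : ∀ l, (m l : ℤ) = r (Sum.inl l) := fun l => Int.toNat_of_nonneg (hnn _)
  let v : ℕ := (r (Sum.inr false)).toNat
  have hv : (v : ℤ) = r (Sum.inr false) := Int.toNat_of_nonneg (hnn _)
  have hmv : ∀ k, fn (A (Sum.inr k)) (rv r) = ((∑ l, (f k l : ℤ) * m l - v : ℤ) : ℚ) := by
    intro k
    rw [hval, hv]
    simp only [hm]
  refine ⟨m, v, fun l => ?_, ?_, ?_, ?_, fun k => ?_, fun k => ?_⟩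
  · have := hle l
    rw [← hm] at this
    exact_mod_cast this
  · have := hr2 (Sum.inl (Sum.inr false))
    rw [hfl, hfl] at this
    simp only [rv, x, Sum.elim_inr, Bool.false_eq_true, if_false] at this
    rw [← hv] at this
    exact_mod_cast this
  · rw [Nat.pos_iff_ne_zero]
    intro h0
    have h1 : ∀ l, m l = 0 := fun l =>
      (Finset.sum_eq_zero_iff_of_nonneg (fun _ _ => Nat.zero_le _)).1 h0 l (Finset.mem_univ l)
    have k₀ : κ := Classical.arbitrary κ
    have h2 := hr1 (Sum.inr k₀)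
    rw [hmv] at h2
    simp only [h1, Nat.cast_zero, mul_zero, Finset.sum_const_zero, zero_sub] at h2
    have h3 : (v : ℤ) = 0 := by
      have : (0 : ℤ) ≤ -(v : ℤ) := by exact_mod_cast h2
      omega
    apply hr0
    funext j
    rcases j with l | s
    · rw [← hm, h1]; rfl
    · cases s
      · rw [← hv, h3]; rfl
      · exact hrt
  · have h1 : ∀ l, m l ≤ Δ := by
      intro l
      have := (le_abs_self _).trans (hr3 (Sum.inl l))
      rw [← hm] at this
      exact_mod_cast this
    calc ∑ l, m l ≤ ∑ _l : ι, Δ := Finset.sum_le_sum fun l _ => h1 l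
      _ = n * Δ := by rw [Finset.sum_const, Finset.card_univ, smul_eq_mul]
      _ ≤ n * ((n + 3) * Δ) := Nat.mul_le_mul_left _ (Nat.le_mul_of_pos_left _ (by omega))
      _ < ∑ l, c l := by rw [← hlen]; exact hN
  · have h2 := hr1 (Sum.inr k)
    rw [hmv] at h2
    have h3 : (0 : ℤ) ≤ ∑ l, (f k l : ℤ) * m l - v := by exact_mod_cast h2
    linarith
  · have h2 := hr2 (Sum.inr k)
    rw [hmv, hxr] at h2
    exact_mod_cast h2

end Pool.Agent.N204.Ray
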