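import Mathlib

/-!
# Small integral vectors in pointed cones

Let `A k · x ≥ 0` be finitely many linear inequalities in `n` unknowns with integral coefficients, such
that the coefficients of the unknown with the number `j` are of absolute value at most `D j`, `D j ≥ 1`,
and such that the cone of the solutions contains no line. We show: if a rational solution `x` has a
coordinate larger than `n Δ`, `Δ = (n - 1)! ∏ D j`, then there is a nonzero integral solution `y` with
coordinates of absolute value at most `Δ` such that `x - y` is a solution.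
-/

namespace Pool.Agent.N204.Ray

open Module Finset

variable {J K : Type*} [Fintype J]

/-- The linear function with the given integral coefficients. -/
def fn (a : J → ℤ) : (J → ℚ) →ₗ[ℚ] ℚ where
  toFun x := ∑ j, (a j : ℚ) * x j
  map_add' x y := by simp only [Pi.add_apply, mul_add, Finset.sum_add_distrib]
  map_smul' c x := by
    simp only [Pi.smul_apply, smul_eq_mul, RingHom.id_apply, Finset.mul_sum]
    exact Finset.sum_congr rfl fun j _ => by ring

lemma fn_apply (a : J → ℤ) (x : J → ℚ) : fn a x = ∑ j, (a j : ℚ) * x j := rfl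

/-- The rational vector with integral coordinates. -/
def rv (r : J → ℤ) : J → ℚ := fun j => (r j : ℚ)

lemma fn_rv (a r : J → ℤ) : fn a (rv r) = ((∑ j, a j * r j : ℤ) : ℚ) := by
  rw [fn_apply]
  push_cast
  rfl

/-- The vectors at which all the functions vanish that vanish at `x`. -/
def kerT (A : K → J → ℤ) (x : J → ℚ) : Submodule ℚ (J → ℚ) where
  carrier := {z | ∀ k, fn (A k) x = 0 → fn (A k) z = 0}
  zero_mem' := fun k _ => map_zero _
  add_mem' := fun {y z} hy hz k hk => by rw [map_add, hy k hk, hz k hk, add_zero]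
  smul_mem' := fun c z hz k hk => by rw [map_smul, hz k hk, smul_zero]

lemma mem_kerT {A : K → J → ℤ} {x z : J → ℚ} :
    z ∈ kerT A x ↔ ∀ k, fn (A k) x = 0 → fn (A k) z = 0 := Iff.rfl

lemma self_mem (A : K → J → ℤ) (x : J → ℚ) : x ∈ kerT A x := fun _ h => h

/-- A bound for determinants. -/
lemma det_bound {p : ℕ} (M : Matrix (Fin p) (Fin p) ℤ) (D : Fin p → ℕ)
    (hD : ∀ i j, |M i j| ≤ D j) : |M.det| ≤ ((p.factorial * ∏ j, D j : ℕ) : ℤ) := by
  rw [Matrix.det_apply]
  refine (Finset.abs_sum_le_sum_abs _ _).trans ?_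
  have h1 : ∀ σ : Equiv.Perm (Fin p), |Equiv.Perm.sign σ • ∏ i, M (σ i) i| ≤
      ((∏ j, D j : ℕ) : ℤ) := by
    intro σ
    have h2 : |Equiv.Perm.sign σ • ∏ i, M (σ i) i| = ∏ i, |M (σ i) i| := by
      rw [Units.smul_def, smul_eq_mul, abs_mul, Finset.abs_prod]
      rcases Int.units_eq_one_or (Equiv.Perm.sign σ) with h | h <;> simp [h]
    rw [h2]
    push_cast
    exact Finset.prod_le_prod (fun i _ => abs_nonneg _) fun i _ => hD _ _
  refine (Finset.sum_le_sum fun σ _ => h1 σ).trans ?_
  rw [Finset.sum_const, Finset.card_univ, Fintype.card_perm, Fintype.card_fin, nsmul_eq_mul]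
  push_cast
  exact le_rfl

/-- The minors of a matrix with linearly independent rows. -/
lemma exists_minors {p : ℕ} (e : Fin (p + 1) ≃ J) (a : Fin p → J → ℤ)
    (ha : LinearIndependent ℚ fun i => fn (a i)) {D : J → ℕ} (hD1 : ∀ j, 1 ≤ D j)
    (hD : ∀ i j, |a i j| ≤ D j) :
    ∃ w : J → ℤ, w ≠ 0 ∧ (∀ i, fn (a i) (rv w) = 0) ∧
      ∀ j, |w j| ≤ ((p.factorial * ∏ j, D j : ℕ) : ℤ) := by
  classical
  let rows : Fin p → Fin (p + 1) → ℤ := fun i => a i ∘ e
  let w : J → ℤ := fun j => (-1) ^ ((e.symm j : Fin (p + 1)) : ℕ) *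
    ((Matrix.of rows).submatrix id (e.symm j).succAbove).det
  have key : ∀ y : Fin (p + 1) → ℤ, (Matrix.of (Fin.cons y rows :
      Fin (p + 1) → Fin (p + 1) → ℤ)).det = ∑ s, y s * w (e s) := by
    intro y
    rw [Matrix.det_succ_row_zero]
    refine Finset.sum_congr rfl fun s _ => ?_
    simp only [w, Equiv.symm_apply_apply, Matrix.of_apply, Fin.cons_zero]
    rw [mul_comm ((-1 : ℤ) ^ (s : ℕ)) (y s), mul_assoc]
    rfl
  refine ⟨w, ?_, ?_, ?_⟩
  · intro hw
    -- all determinants vanish
    have h1 : ∀ y : Fin (p + 1) → ℤ, (Matrix.of (Fin.cons y rows :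
        Fin (p + 1) → Fin (p + 1) → ℤ)).det = 0 := by
      intro y
      rw [key, hw]
      simp
    -- the rows over the rational numbers
    let rq : Fin p → Fin (p + 1) → ℚ := fun i s => (rows i s : ℚ)
    have hrq : LinearIndependent ℚ rq := by
      rw [Fintype.linearIndependent_iff] at ha ⊢
      intro g hg
      apply ha g
      apply LinearMap.ext
      intro x
      rw [LinearMap.sum_apply, LinearMap.zero_apply]
      simp only [LinearMap.smul_apply, fn_apply, smul_eq_mul]
      have h2 : ∀ j, ∑ i, g i * ((a i j : ℤ) : ℚ) = 0 := by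
        intro j
        have h3 := congrFun hg (e.symm j)
        simp only [Finset.sum_apply, Pi.smul_apply, smul_eq_mul, Pi.zero_apply, rq, rows,
          Function.comp_apply, Equiv.apply_symm_apply] at h3
        exact h3
      calc ∑ i, g i * ∑ j, ((a i j : ℤ) : ℚ) * x j =
          ∑ j, (∑ i, g i * ((a i j : ℤ) : ℚ)) * x j := by
            simp only [Finset.mul_sum, Finset.sum_mul]
            rw [Finset.sum_comm]
            exact Finset.sum_congr rfl fun _ _ => Finset.sum_congr rfl fun _ _ => by ring
        _ = 0 := Finset.sum_eq_zero fun j _ => by rw [h2, zero_mul]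
    have hne : Submodule.span ℚ (Set.range rq) ≠ ⊤ := by
      intro htop
      have h2 := finrank_span_eq_card hrq
      rw [htop, finrank_top, finrank_fintype_fun_eq_card, Fintype.card_fin, Fintype.card_fin] at h2
      omega
    obtain ⟨s, hs⟩ : ∃ s : Fin (p + 1), (Pi.single s 1 : Fin (p + 1) → ℚ) ∉
        Submodule.span ℚ (Set.range rq) := by
      by_contra hcon
      push Not at hcon
      apply hne
      rw [eq_top_iff]
      intro x _
      rw [← Finset.univ_sum_single x]
      refine Submodule.sum_mem _ fun s _ => ?_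
      have h3 : (Pi.single s (x s) : Fin (p + 1) → ℚ) = x s • (Pi.single s 1) := by
        ext t
        by_cases ht : t = s
        · subst ht; simp
        · simp [Pi.single_eq_of_ne ht]
      rw [h3]
      exact Submodule.smul_mem _ _ (hcon s)
    have hli : LinearIndependent ℚ (Fin.cons (Pi.single s 1) rq :
        Fin (p + 1) → Fin (p + 1) → ℚ) := hrq.finCons hs
    have hunit := Matrix.linearIndependent_rows_iff_isUnit.1
      (show LinearIndependent ℚ (Matrix.of (Fin.cons (Pi.single s 1) rq :
        Fin (p + 1) → Fin (p + 1) → ℚ)).row from hli)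
    have hdet := (Matrix.isUnit_iff_isUnit_det _).1 hunit
    have h4 : (Matrix.of (Fin.cons (Pi.single s 1) rq : Fin (p + 1) → Fin (p + 1) → ℚ)) =
        (Matrix.of (Fin.cons (Pi.single s 1) rows : Fin (p + 1) → Fin (p + 1) → ℤ)).map
          (Int.castRingHom ℚ) := by
      ext i t
      refine Fin.cases ?_ (fun i => ?_) i
      · simp only [Matrix.of_apply, Fin.cons_zero, Matrix.map_apply]
        by_cases ht : t = s
        · subst ht; simp
        · simp [Pi.single_eq_of_ne ht]
      · simp only [Matrix.of_apply, Fin.cons_succ, Matrix.map_apply]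
        rfl
    rw [h4, ← RingHom.mapMatrix_apply, ← RingHom.map_det, h1, map_zero] at hdet
    exact not_isUnit_zero hdet
  · intro i
    rw [fn_rv]
    have h1 := key (rows i)
    have h2 : (Matrix.of (Fin.cons (rows i) rows : Fin (p + 1) → Fin (p + 1) → ℤ)).det = 0 := by
      apply Matrix.det_zero_of_row_eq (i := 0) (j := i.succ) (Fin.succ_ne_zero i).symm
      ext t
      simp [Matrix.of_apply]
    rw [h2] at h1
    have h3 : ∑ j, a i j * w j = ∑ s, rows i s * w (e s) :=
      (Equiv.sum_comp e (fun j => a i j * w j)).symm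
    rw [h3, ← h1]
    rfl
  · intro j
    simp only [w]
    rw [abs_mul, abs_pow, abs_neg, abs_one, one_pow, one_mul]
    refine (det_bound ((Matrix.of rows).submatrix id (e.symm j).succAbove)
      (fun t => D (e ((e.symm j).succAbove t))) fun i t => hD i _).trans ?_
    have h1 : ∏ t, D (e ((e.symm j).succAbove t)) ≤ ∏ j, D j := by
      rw [← Equiv.prod_comp e D, Fin.prod_univ_succAbove _ (e.symm j)]
      exact Nat.le_mul_of_pos_left _ (hD1 _)
    exact_mod_cast Nat.mul_le_mul_left _ h1

end Pool.Agent.N204.Ray
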