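import Pool.Agent.N204.Ray.Basic

/-!
# Extreme rays of pointed cones, and the decomposition of long vectors
-/

namespace Pool.Agent.N204.Ray

open Module Finset

variable {J K : Type*} [Fintype J]

/-- The bound for the coordinates of the extreme rays. -/
def rayBound {J : Type*} [Fintype J] (D : J → ℕ) : ℕ :=
  (Fintype.card J - 1).factorial * ∏ j, D j

/-- The integral generator of a line. -/
lemma exists_line {A : K → J → ℤ} {D : J → ℕ} (hD1 : ∀ j, 1 ≤ D j) (hD : ∀ k j, |A k j| ≤ D j) {x : J → ℚ}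
    (hx : ∀ k, 0 ≤ fn (A k) x) (hx0 : x ≠ 0) (h1 : finrank ℚ (kerT A x) = 1) :
    ∃ r : J → ℤ, r ≠ 0 ∧ (∀ k, 0 ≤ fn (A k) (rv r)) ∧ rv r ∈ kerT A x ∧
      ∀ j, |r j| ≤ rayBound D := by
  classical
  -- the span of the functions that vanish at `x`
  let s : Set (Dual ℚ (J → ℚ)) := {φ | ∃ k, fn (A k) x = 0 ∧ φ = fn (A k)}
  have hs : (Submodule.span ℚ s).dualCoannihilator = kerT A x := by
    ext z
    rw [Submodule.mem_dualCoannihilator]
    constructor
    · intro h k hk
      exact h _ (Submodule.subset_span ⟨k, hk, rfl⟩)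
    · intro h φ hφ
      induction hφ using Submodule.span_induction with
      | mem φ hφ =>
        obtain ⟨k, hk, rfl⟩ := hφ
        exact h k hk
      | zero => rfl
      | add φ ψ _ _ h1 h2 => rw [LinearMap.add_apply, h1, h2, add_zero]
      | smul c φ _ h1 => rw [LinearMap.smul_apply, h1, smul_zero]
  have hdim := Subspace.finrank_add_finrank_dualCoannihilator_eq (Submodule.span ℚ s)
  rw [hs, h1, finrank_fintype_fun_eq_card] at hdim
  obtain ⟨p, f, hdim, hf1, hf2, hf3⟩ : ∃ (p : ℕ) (f : Fin p → Dual ℚ (J → ℚ)),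
      p + 1 = Fintype.card J ∧ (∀ i, f i ∈ s) ∧
      Submodule.span ℚ (Set.range f) = Submodule.span ℚ s ∧ LinearIndependent ℚ f := by
    obtain ⟨f, hf1, hf2, hf3⟩ := Submodule.exists_fun_fin_finrank_span_eq ℚ s
    exact ⟨_, f, hdim, hf1, hf2, hf3⟩
  choose g hg1 hg2 using hf1
  have e : Fin (p + 1) ≃ J := (Fintype.equivFinOfCardEq hdim.symm).symm
  obtain ⟨w, hw0, hw1, hw2⟩ := exists_minors e (fun i => A (g i)) (by
    have h2 : (fun i => fn (A (g i))) = f := funext fun i => (hg2 i).symm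
    rw [h2]
    exact hf3) (D := D) hD1 (fun i j => hD _ _)
  have hcard : Fintype.card J - 1 = p := by omega
  have hwk : rv w ∈ kerT A x := by
    intro k hk
    have h2 : fn (A k) ∈ Submodule.span ℚ (Set.range f) := by
      rw [hf2]
      exact Submodule.subset_span ⟨k, hk, rfl⟩
    have h3 : ∀ φ ∈ Submodule.span ℚ (Set.range f), φ (rv w) = 0 := by
      intro φ hφ
      induction hφ using Submodule.span_induction with
      | mem φ hφ =>
        obtain ⟨i, rfl⟩ := hφ
        rw [hg2]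
        exact hw1 i
      | zero => rfl
      | add φ ψ _ _ h1 h2 => rw [LinearMap.add_apply, h1, h2, add_zero]
      | smul c φ _ h1 => rw [LinearMap.smul_apply, h1, smul_zero]
    exact h3 _ h2
  obtain ⟨c, hc⟩ := (finrank_eq_one_iff_of_nonzero' (⟨x, self_mem A x⟩ : kerT A x)
    (fun h => hx0 (congrArg Subtype.val h))).1 h1 ⟨rv w, hwk⟩
  have hc' : c • x = rv w := congrArg Subtype.val hc
  have hwq : rv w ≠ 0 := by
    intro h
    apply hw0
    funext j
    have := congrFun h j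
    simp only [rv, Pi.zero_apply] at this
    exact_mod_cast this
  have hc0 : c ≠ 0 := by
    rintro rfl
    rw [zero_smul] at hc'
    exact hwq hc'.symm
  have hneg : rv (-w) = -rv w := by
    funext j
    simp [rv]
  rcases lt_or_gt_of_ne hc0 with hneg' | hpos
  · refine ⟨-w, neg_ne_zero.2 hw0, fun k => ?_, ?_, fun j => ?_⟩
    · rw [hneg, ← hc', map_neg, map_smul, smul_eq_mul]
      have := mul_nonneg (neg_nonneg.2 hneg'.le) (hx k)
      linarith
    · rw [hneg]
      exact Submodule.neg_mem _ hwk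
    · rw [Pi.neg_apply, abs_neg, rayBound, hcard]
      exact hw2 j
  · refine ⟨w, hw0, fun k => ?_, hwk, fun j => ?_⟩
    · rw [← hc', map_smul, smul_eq_mul]
      exact mul_nonneg hpos.le (hx k)
    · rw [rayBound, hcard]
      exact hw2 j

lemma kerT_lt {A : K → J → ℤ} {x x' z : J → ℚ} (h : ∀ k, fn (A k) x = 0 → fn (A k) x' = 0)
    (hz : z ∈ kerT A x) {k : K} (hk : fn (A k) x' = 0) (hk' : fn (A k) z ≠ 0) :
    finrank ℚ (kerT A x') < finrank ℚ (kerT A x) := by
  apply Submodule.finrank_lt_finrank_of_lt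
  refine lt_of_le_of_ne (fun y hy k hk => hy k (h k hk)) ?_
  intro heq
  rw [← heq] at hz
  exact hk' (hz k hk)

/-- Existence of small integral vectors in the faces of a pointed cone. -/
theorem exists_ray [Fintype K] {A : K → J → ℤ} {D : J → ℕ} (hD1 : ∀ j, 1 ≤ D j) (hD : ∀ k j, |A k j| ≤ D j)
    (hp : ∀ z : J → ℚ, (∀ k, fn (A k) z = 0) → z = 0) : ∀ (d : ℕ) (x : J → ℚ),
    (∀ k, 0 ≤ fn (A k) x) → x ≠ 0 → finrank ℚ (kerT A x) ≤ d →
    ∃ r : J → ℤ, r ≠ 0 ∧ (∀ k, 0 ≤ fn (A k) (rv r)) ∧ rv r ∈ kerT A x ∧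
      ∀ j, |r j| ≤ rayBound D := by
  classical
  intro d
  induction d with
  | zero =>
    intro x hx hx0 hd
    have h1 : kerT A x = ⊥ := Submodule.finrank_eq_zero.1 (by omega)
    have h2 := self_mem A x
    rw [h1, Submodule.mem_bot] at h2
    exact absurd h2 hx0
  | succ d ih =>
    intro x hx hx0 hd
    rcases Nat.lt_or_ge (finrank ℚ (kerT A x)) (d + 1) with hlt | hge
    · exact ih x hx hx0 (by omega)
    have hd' : finrank ℚ (kerT A x) = d + 1 := le_antisymm hd hge
    rcases Nat.eq_zero_or_pos d with rfl | hd0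
    · exact exists_line hD1 hD hx hx0 hd'
    -- a direction
    obtain ⟨z, hz, hzx⟩ : ∃ z ∈ kerT A x, z ∉ Submodule.span ℚ {x} := by
      by_contra hcon
      push Not at hcon
      have h1 : finrank ℚ (kerT A x) ≤ finrank ℚ (Submodule.span ℚ {x}) :=
        Submodule.finrank_mono hcon
      have h2 := finrank_span_singleton (K := ℚ) hx0
      omega
    obtain ⟨z, hz, hzx, k₁, hk₁⟩ : ∃ z ∈ kerT A x, z ∉ Submodule.span ℚ {x} ∧
        ∃ k, fn (A k) z < 0 := by
      have hz0 : z ≠ 0 := by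
        rintro rfl
        exact hzx (Submodule.zero_mem _)
      obtain ⟨k, hk⟩ : ∃ k, fn (A k) z ≠ 0 := by
        by_contra hcon
        push Not at hcon
        exact hz0 (hp z hcon)
      rcases lt_or_gt_of_ne hk with h | h
      · exact ⟨z, hz, hzx, k, h⟩
      · refine ⟨-z, Submodule.neg_mem _ hz, fun h' => hzx ?_, k, ?_⟩
        · have := Submodule.neg_mem _ h'
          rwa [neg_neg] at this
        · rw [map_neg]; linarith
    let S : Finset K := Finset.univ.filter fun k => fn (A k) z < 0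
    obtain ⟨k₀, hk₀, hmin⟩ := S.exists_min_image (fun k => fn (A k) x / (-fn (A k) z))
      ⟨k₁, Finset.mem_filter.2 ⟨Finset.mem_univ _, hk₁⟩⟩
    have hk₀' : fn (A k₀) z < 0 := (Finset.mem_filter.1 hk₀).2
    set s := fn (A k₀) x / (-fn (A k₀) z) with hs
    have hs0 : 0 ≤ s := div_nonneg (hx k₀) (by linarith)
    have hx'k : ∀ k, 0 ≤ fn (A k) (x + s • z) := by
      intro k
      rw [map_add, map_smul, smul_eq_mul]
      rcases le_or_gt 0 (fn (A k) z) with h | h
      · exact add_nonneg (hx k) (mul_nonneg hs0 h)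
      · have h1 := hmin k (Finset.mem_filter.2 ⟨Finset.mem_univ _, h⟩)
        rw [le_div_iff₀ (by linarith)] at h1
        linarith
    have hk0x : fn (A k₀) (x + s • z) = 0 := by
      rw [map_add, map_smul, smul_eq_mul, hs]
      have : fn (A k₀) z ≠ 0 := hk₀'.ne
      field_simp
      ring
    have hx'0 : x + s • z ≠ 0 := by
      intro h
      rcases eq_or_ne s 0 with h1 | h1
      · rw [h1, zero_smul, add_zero] at h
        exact hx0 h
      · apply hzx
        rw [Submodule.mem_span_singleton]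
        refine ⟨-s⁻¹, ?_⟩
        have h2 : s • z = -x := by
          rw [eq_neg_iff_add_eq_zero, add_comm]; exact h
        calc (-s⁻¹) • x = s⁻¹ • (-x) := by rw [neg_smul, smul_neg]
          _ = s⁻¹ • (s • z) := by rw [h2]
          _ = z := inv_smul_smul₀ h1 z
    have hT : ∀ k, fn (A k) x = 0 → fn (A k) (x + s • z) = 0 := by
      intro k hk
      rw [map_add, map_smul, hk, hz k hk, smul_zero, add_zero]
    have hlt := kerT_lt hT hz hk0x hk₀'.ne
    obtain ⟨r, hr0, hr1, hr2, hr3⟩ := ih (x + s • z) hx'k hx'0 (by omega)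
    exact ⟨r, hr0, hr1, fun k hk => hr2 k (hT k hk), hr3⟩

/-- **A long vector in a pointed cone contains a short integral vector.** -/
theorem exists_part [Fintype K] {A : K → J → ℤ} {D : J → ℕ} (hD1 : ∀ j, 1 ≤ D j) (hD : ∀ k j, |A k j| ≤ D j)
    (hp : ∀ z : J → ℚ, (∀ k, 0 ≤ fn (A k) z) → ∀ j, 0 ≤ z j) : ∀ (d : ℕ) (x : J → ℚ),
    (∀ k, 0 ≤ fn (A k) x) → finrank ℚ (kerT A x) ≤ d →
    (∃ j, ((d * rayBound D : ℕ) : ℚ) < x j) →
    ∃ r : J → ℤ, r ≠ 0 ∧ (∀ k, 0 ≤ fn (A k) (rv r)) ∧ (∀ k, fn (A k) (rv r) ≤ fn (A k) x) ∧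
      ∀ j, |r j| ≤ rayBound D := by
  classical
  have hp' : ∀ z : J → ℚ, (∀ k, fn (A k) z = 0) → z = 0 := by
    intro z hz
    funext j
    have h1 := hp z (fun k => (hz k).ge) j
    have h2 := hp (-z) (fun k => by rw [map_neg, hz k, neg_zero]) j
    rw [Pi.neg_apply] at h2
    rw [Pi.zero_apply]
    linarith
  intro d
  induction d with
  | zero =>
    rintro x hx hd ⟨j, hj⟩
    have h1 : kerT A x = ⊥ := Submodule.finrank_eq_zero.1 (by omega)
    have h2 := self_mem A x
    rw [h1, Submodule.mem_bot] at h2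
    rw [h2] at hj
    simp at hj
  | succ d ih =>
    rintro x hx hd ⟨j, hj⟩
    have hx0 : x ≠ 0 := by
      rintro rfl
      rw [Pi.zero_apply] at hj
      have : (0 : ℚ) ≤ (((d + 1) * rayBound D : ℕ) : ℚ) := Nat.cast_nonneg _
      linarith
    obtain ⟨r, hr0, hr1, hr2, hr3⟩ := exists_ray hD1 hD hp' _ x hx hx0 le_rfl
    by_cases hall : ∀ k, fn (A k) (rv r) ≤ fn (A k) x
    · exact ⟨r, hr0, hr1, hall, hr3⟩
    push Not at hall
    obtain ⟨k₁, hk₁⟩ := hall
    let S : Finset K := Finset.univ.filter fun k => 0 < fn (A k) (rv r)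
    obtain ⟨k₀, hk₀, hmin⟩ := S.exists_min_image (fun k => fn (A k) x / fn (A k) (rv r))
      ⟨k₁, Finset.mem_filter.2 ⟨Finset.mem_univ _, lt_of_le_of_lt (hx k₁) hk₁⟩⟩
    have hk₀' : 0 < fn (A k₀) (rv r) := (Finset.mem_filter.1 hk₀).2
    set s := fn (A k₀) x / fn (A k₀) (rv r) with hs
    have hs0 : 0 ≤ s := div_nonneg (hx k₀) hk₀'.le
    have hs1 : s < 1 := by
      have h1 := hmin k₁ (Finset.mem_filter.2 ⟨Finset.mem_univ _, lt_of_le_of_lt (hx k₁) hk₁⟩)
      refine lt_of_le_of_lt h1 ?_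
      rw [div_lt_one (lt_of_le_of_lt (hx k₁) hk₁)]
      exact hk₁
    have hx'k : ∀ k, 0 ≤ fn (A k) (x - s • rv r) := by
      intro k
      rw [map_sub, map_smul, smul_eq_mul]
      rcases (hr1 k).eq_or_lt with h | h
      · rw [← h, mul_zero, sub_zero]; exact hx k
      · have h1 := hmin k (Finset.mem_filter.2 ⟨Finset.mem_univ _, h⟩)
        rw [le_div_iff₀ h] at h1
        linarith
    have hk0x : fn (A k₀) (x - s • rv r) = 0 := by
      rw [map_sub, map_smul, smul_eq_mul, hs]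
      field_simp
      ring
    have hT : ∀ k, fn (A k) x = 0 → fn (A k) (x - s • rv r) = 0 := by
      intro k hk
      rw [map_sub, map_smul, hk, hr2 k hk, smul_zero, sub_zero]
    have hlt := kerT_lt hT hr2 hk0x hk₀'.ne'
    have hrj : (r j : ℚ) ≤ (rayBound D : ℕ) := by
      have h1 := (le_abs_self (r j)).trans (hr3 j)
      exact_mod_cast h1
    obtain ⟨y, hy0, hy1, hy2, hy3⟩ := ih (x - s • rv r) hx'k (by omega) ⟨j, by
      rw [Pi.sub_apply, Pi.smul_apply, smul_eq_mul]
      have h1 : s * rv r j ≤ (rayBound D : ℕ) := by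
        have h2 : (0 : ℚ) ≤ (rayBound D : ℕ) := Nat.cast_nonneg _
        calc s * rv r j ≤ s * (rayBound D : ℕ) :=
              mul_le_mul_of_nonneg_left hrj hs0
          _ ≤ 1 * (rayBound D : ℕ) := mul_le_mul_of_nonneg_right hs1.le h2
          _ = _ := one_mul _
      push_cast at hj h1 ⊢
      linarith⟩
    refine ⟨y, hy0, hy1, fun k => ?_, hy3⟩
    refine (hy2 k).trans ?_
    rw [map_sub, map_smul, smul_eq_mul]
    have := mul_nonneg hs0 (hr1 k)
    linarith

end Pool.Agent.N204.Ray
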